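import Pool.Agent.H904R2.Alpha

/-!
# The unit quaternions: homology and a spherical class

The 3-sphere is a retract up to homotopy of the punctured 4-space; a spherical class of nonzero
degree comes from the last column of `GL_2(ℂ)`.
-/

set_option autoImplicit false

open scoped Topology unitInterval Quaternion

namespace Run7.h605.RE

open Pool.Agent.H904R2
open Pool.Agent.Helper922.HB.Sc (Sing sface altd bd sbd slice pb)

noncomputable section

/-- the 3-sphere, as the group of the unit quaternions -/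
abbrev GQ : Type := Metric.sphere (0 : Quaternion ℝ) 1

instance pcGQ : PathConnectedSpace GQ := by
  rw [← isPathConnected_iff_pathConnectedSpace]
  apply isPathConnected_sphere _ _ zero_le_one
  rw [Quaternion.rank_eq_four]
  norm_num

/-- the quaternion of a vector; the third coordinate is the real part -/
def qv (v : Fin 4 → ℝ) : Quaternion ℝ := ⟨v 2, v 3, v 0, v 1⟩

theorem continuous_qv : Continuous qv := by
  have e : qv = fun v => v 2 • (⟨1, 0, 0, 0⟩ : Quaternion ℝ) + v 3 • (⟨0, 1, 0, 0⟩ : Quaternion ℝ) +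
      v 0 • (⟨0, 0, 1, 0⟩ : Quaternion ℝ) + v 1 • (⟨0, 0, 0, 1⟩ : Quaternion ℝ) := by
    funext v
    ext <;> simp [qv]
  rw [e]
  exact ((((continuous_apply (2 : Fin 4)).smul continuous_const).add
    ((continuous_apply (3 : Fin 4)).smul continuous_const)).add
    ((continuous_apply (0 : Fin 4)).smul continuous_const)).add
    ((continuous_apply (1 : Fin 4)).smul continuous_const)

theorem qv_ne (v : Pc (3 + 1)) : qv v.1 ≠ 0 := by
  intro h
  apply v.2
  have h0 := congrArg (fun a : Quaternion ℝ => a.re) h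
  have h1 := congrArg (fun a : Quaternion ℝ => a.imI) h
  have h2 := congrArg (fun a : Quaternion ℝ => a.imJ) h
  have h3 := congrArg (fun a : Quaternion ℝ => a.imK) h
  simp only [qv, Quaternion.re_zero, Quaternion.imI_zero, Quaternion.imJ_zero,
    Quaternion.imK_zero] at h0 h1 h2 h3
  funext i
  fin_cases i
  · exact h2
  · exact h3
  · exact h0
  · exact h1

theorem qv_norm_pos (v : Pc (3 + 1)) : 0 < ‖qv v.1‖ := norm_pos_iff.2 (qv_ne v)

/-- radial projection -/
def rq : C(Pc (3 + 1), GQ) :=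
  ⟨fun v => ⟨‖qv v.1‖⁻¹ • qv v.1, by
    rw [mem_sphere_zero_iff_norm, norm_smul, norm_inv, norm_norm,
      inv_mul_cancel₀ (qv_norm_pos v).ne']⟩, by
    apply Continuous.subtype_mk
    have h1 : Continuous fun v : Pc (3 + 1) => qv v.1 := continuous_qv.comp continuous_subtype_val
    exact (h1.norm.inv₀ fun v => (qv_norm_pos v).ne').smul h1⟩

/-- the vector of a quaternion -/
def vq (a : Quaternion ℝ) : Fin 4 → ℝ := ![a.imJ, a.imK, a.re, a.imI]

theorem qv_vq (a : Quaternion ℝ) : qv (vq a) = a := by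
  ext <;> simp [qv, vq]

theorem vq_qv (v : Fin 4 → ℝ) : vq (qv v) = v := by
  funext i
  fin_cases i <;> simp [qv, vq]

theorem continuous_vq : Continuous vq := by
  refine continuous_pi fun i => ?_
  fin_cases i
  · exact Quaternion.continuous_imJ
  · exact Quaternion.continuous_imK
  · exact Quaternion.continuous_re
  · exact Quaternion.continuous_imI

theorem vq_smul (c : ℝ) (a : Quaternion ℝ) : vq (c • a) = c • vq a := by
  funext i
  fin_cases i <;> simp [vq]

/-- the inclusion -/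
def eq' : C(GQ, Pc (3 + 1)) :=
  ⟨fun a => ⟨vq a.1, by
    intro h
    have h1 : qv (vq a.1) = qv 0 := by rw [h]
    rw [qv_vq] at h1
    have h2 := a.2
    rw [mem_sphere_zero_iff_norm, h1] at h2
    have h3 : qv 0 = 0 := by ext <;> simp [qv]
    rw [h3, norm_zero] at h2
    exact zero_ne_one h2⟩, by
    apply Continuous.subtype_mk
    exact continuous_vq.comp continuous_subtype_val⟩

theorem rq_eq (a : GQ) : rq (eq' a) = a := by
  apply Subtype.ext
  change ‖qv (vq a.1)‖⁻¹ • qv (vq a.1) = a.1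
  rw [qv_vq, mem_sphere_zero_iff_norm.1 a.2, inv_one, one_smul]

/-- the radial homotopy -/
def Hq : C(Pc (3 + 1) × I, Pc (3 + 1)) :=
  ⟨fun p => ⟨((1 - (p.2 : ℝ)) * ‖qv p.1.1‖⁻¹ + (p.2 : ℝ)) • p.1.1, by
    have h1 := qv_norm_pos p.1
    have h2 : 0 < ‖qv p.1.1‖⁻¹ := inv_pos.2 h1
    have h3 := p.2.2.1
    have h4 := p.2.2.2
    have h5 : 0 < (1 - (p.2 : ℝ)) * ‖qv p.1.1‖⁻¹ + (p.2 : ℝ) := by
      rcases eq_or_lt_of_le h3 with h | h
      · rw [← h]
        simpa using h1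
      · have := mul_nonneg (sub_nonneg.2 h4) h2.le
        linarith
    exact smul_ne_zero h5.ne' p.1.2⟩, by
    apply Continuous.subtype_mk
    have h1 : Continuous fun v : Pc (3 + 1) × I => qv v.1.1 :=
      continuous_qv.comp (continuous_subtype_val.comp continuous_fst)
    have h2 : Continuous fun v : Pc (3 + 1) × I => ‖qv v.1.1‖⁻¹ :=
      h1.norm.inv₀ fun v => (qv_norm_pos v.1).ne'
    fun_prop⟩

theorem slice_one : slice Hq 1 = ContinuousMap.id _ := by
  apply ContinuousMap.ext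
  intro v
  apply Subtype.ext
  change ((1 - ((1 : I) : ℝ)) * ‖qv v.1‖⁻¹ + ((1 : I) : ℝ)) • v.1 = v.1
  simp

theorem slice_zero : slice Hq 0 = eq'.comp rq := by
  apply ContinuousMap.ext
  intro v
  apply Subtype.ext
  change ((1 - ((0 : I) : ℝ)) * ‖qv v.1‖⁻¹ + ((0 : I) : ℝ)) • v.1 = vq (‖qv v.1‖⁻¹ • qv v.1)
  rw [vq_smul, vq_qv]
  simp

theorem rq_lcol_one : rq (lcol 1 1) = 1 := by
  rw [lcol_one]
  have h : (elast 1).1 = ![0, 0, 1, 0] := by
    change ofC (1 + 1) (Pi.single (Fin.last 1) 1) = _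
    funext i
    fin_cases i <;> simp [ofC, Fin.last]
  have h2 : qv (elast 1).1 = 1 := by
    rw [h]
    ext <;> simp [qv]
  apply Subtype.ext
  change ‖qv (elast 1).1‖⁻¹ • qv (elast 1).1 = 1
  rw [h2, norm_one, inv_one, one_smul]

/-- F2: the data for the unit quaternions -/
theorem f2 : ∃ (c : Sing GQ 3 → ℤ) (α : (SingG GQ).N 2) (γ : Ch GQ 3),
    dlt Pool.Agent.Helper922.HB.Sc.sface 3 c = 0 ∧ c α.1 ≠ 0 ∧ IsCyc 3 γ ∧
    (∀ z : Ch GQ 3, IsCyc 3 z → ∃ a : ℤ, IsBdy 3 (z - a • γ)) ∧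
    (∀ j, j ≠ 3 → RAcyc GQ j) := by
  have hid : rq.comp eq' = ContinuousMap.id _ := ContinuousMap.ext rq_eq
  obtain ⟨ω, hω, hω1⟩ := pc_coc 3
  -- the cocycle moved by the radial projection
  let ω' : Sing (Pc (3 + 1)) 3 → ℤ := pb (eq'.comp rq) ω
  have hω' : altd ℤ (sface (X := Pc (3 + 1))) 3 ω' = 0 := by
    change altd ℤ (sface (X := Pc (3 + 1))) 3 (pb (eq'.comp rq) ω) = 0
    rw [Pool.Agent.Helper922.HB.Sc.altd_pb, hω]
    rfl
  have hω1' : evm ω' (fund 3) = 1 := by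
    have h1 := Prd.htpy_bdy Hq 3 (fund 3) (Sph.fund_isCyc 3)
    rw [slice_one, slice_zero, Prd.psh_id] at h1
    have h2 := Deg.evm_bdy hω h1
    rw [map_sub, hω1, evm_psh] at h2
    change (1 : ℤ) - evm ω' (fund 3) = 0 at h2
    linarith
  obtain ⟨α, hα, hα1⟩ := exists_alpha 1 ω' (by rw [← altd_eq_dlt]; exact hω') hω1'
  let c : Sing GQ 3 → ℤ := pb eq' ω
  have hαN : (rq.comp ((lcol 1).comp (α : C(stdSimplex ℝ (Fin (2 * 1 + 1 + 1)), GLr (1 + 1)))) :
      (SingG GQ).Γ (2 + 1)) ∈ (SingG GQ).N 2 := by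
    have hα' := (SymGrp.mem_N _ _ _).1 hα
    refine (SymGrp.mem_N _ _ _).2 ?_
    intro i
    have h1 := hα' i
    refine ContinuousMap.ext fun t => ?_
    have h2 : (α : C(stdSimplex ℝ (Fin (2 * 1 + 1 + 1)), GLr (1 + 1)))
        (stdSimplex.map i.succAbove t) = 1 :=
      congrArg (fun F : C(stdSimplex ℝ (Fin (2 * 1 + 1)), GLr (1 + 1)) => F t) h1
    change rq (lcol 1 ((α : C(stdSimplex ℝ (Fin (2 * 1 + 1 + 1)), GLr (1 + 1)))
        (stdSimplex.map i.succAbove t))) = 1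
    rw [h2]
    exact rq_lcol_one
  refine ⟨c, ⟨_, hαN⟩, psh rq 3 (fund 3), ?_, ?_, ?_, ?_, ?_⟩
  · rw [← altd_eq_dlt]
    change altd ℤ (sface (X := GQ)) 3 (pb eq' ω) = 0
    rw [Pool.Agent.Helper922.HB.Sc.altd_pb, hω]
    rfl
  · exact hα1
  · exact Prd.isCyc_psh rq 3 _ (Sph.fund_isCyc 3)
  · intro z hz
    obtain ⟨a, ha⟩ := pc_gen 3 (psh eq' 3 z) (Prd.isCyc_psh eq' 3 z hz)
    refine ⟨a, ?_⟩
    have h1 := Prd.isBdy_psh rq 3 _ ha
    rw [map_sub, map_smul, Prd.psh_psh, hid, Prd.psh_id] at h1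
    exact h1
  · intro j hj z hz
    have h1 := Prd.isBdy_psh rq j _ (pc_acyc 3 j hj (psh eq' j z) (Prd.isCyc_psh eq' j z hz))
    rw [Prd.psh_psh, hid, Prd.psh_id] at h1
    exact h1

end

end Run7.h605.RE
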