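import Pool.Agent.H904R2.SingG

/-!
# Cubical and simplicial homotopy groups of a topological group

The collapse of the cube onto the simplex is a relative homeomorphism, so generalised loops in a
topological group correspond to singular simplices with trivial faces; homotopies correspond to
simplices of the next dimension with one nontrivial face.
-/

set_option autoImplicit false

open scoped Topology unitInterval

namespace Run7.h605.RE

open Pool.Agent.H904R2

noncomputable section

/-- coordinates of the collapse of the cube onto the simplex -/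
def kv : ∀ n : ℕ, (Fin n → ℝ) → Fin (n + 1) → ℝ
  | 0, _ => fun _ => 1
  | n + 1, s => Fin.cons (1 - s 0) fun j => s 0 * kv n (Fin.tail s) j

theorem kv_zero (s : Fin 0 → ℝ) (j : Fin 1) : kv 0 s j = 1 := rfl

theorem kv_cons_zero (n : ℕ) (s : Fin (n + 1) → ℝ) : kv (n + 1) s 0 = 1 - s 0 := rfl

theorem kv_cons_succ (n : ℕ) (s : Fin (n + 1) → ℝ) (j : Fin (n + 1)) :
    kv (n + 1) s j.succ = s 0 * kv n (Fin.tail s) j := rfl

theorem kv_continuous (n : ℕ) : Continuous (kv n) := by
  induction n with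
  | zero => exact continuous_const
  | succ n ih =>
    refine continuous_pi fun j => ?_
    refine Fin.cases ?_ (fun j => ?_) j
    · simp only [kv_cons_zero]
      fun_prop
    · simp only [kv_cons_succ]
      refine (continuous_apply 0).mul ?_
      have h1 : Continuous (fun s : Fin (n + 1) → ℝ => Fin.tail s) :=
        continuous_pi fun i => continuous_apply i.succ
      exact (continuous_apply j).comp (ih.comp h1)

theorem kv_nonneg (n : ℕ) (s : Fin n → ℝ) (h0 : ∀ i, 0 ≤ s i) (h1 : ∀ i, s i ≤ 1)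
    (j : Fin (n + 1)) : 0 ≤ kv n s j := by
  induction n with
  | zero => exact zero_le_one
  | succ n ih =>
    refine Fin.cases ?_ (fun j => ?_) j
    · rw [kv_cons_zero]
      linarith [h1 0]
    · rw [kv_cons_succ]
      exact mul_nonneg (h0 0) (ih (Fin.tail s) (fun i => h0 _) (fun i => h1 _) j)

theorem kv_sum (n : ℕ) (s : Fin n → ℝ) : ∑ j, kv n s j = 1 := by
  induction n with
  | zero => simp [kv_zero]
  | succ n ih =>
    rw [Fin.sum_univ_succ]
    simp only [kv_cons_zero, kv_cons_succ]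
    rw [← Finset.mul_sum, ih]
    ring

theorem kv_inj (n : ℕ) (s s' : Fin n → ℝ) (h : kv n s = kv n s') (hs : ∀ i, s i ≠ 0) : s = s' := by
  induction n with
  | zero => exact Subsingleton.elim _ _
  | succ n ih =>
    have h0 : s 0 = s' 0 := by
      have := congrFun h 0
      rw [kv_cons_zero, kv_cons_zero] at this
      linarith
    have h1 : Fin.tail s = Fin.tail s' := by
      apply ih
      · funext j
        have := congrFun h j.succ
        rw [kv_cons_succ, kv_cons_succ, ← h0] at this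
        exact mul_left_cancel₀ (hs 0) this
      · intro i
        exact hs _
    funext i
    refine Fin.cases h0 (fun i => ?_) i
    exact congrFun h1 i

theorem kv_bdry (n : ℕ) (s : Fin n → ℝ) :
    (∃ j, kv n s j = 0) ↔ ∃ i, s i = 0 ∨ s i = 1 := by
  induction n with
  | zero =>
    constructor
    · rintro ⟨j, hj⟩
      exact absurd hj one_ne_zero
    · rintro ⟨i, _⟩
      exact i.elim0
  | succ n ih =>
    constructor
    · rintro ⟨j, hj⟩
      revert hj
      refine Fin.cases ?_ (fun j => ?_) j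
      · intro hj
        rw [kv_cons_zero] at hj
        exact ⟨0, Or.inr (by linarith)⟩
      · intro hj
        rw [kv_cons_succ] at hj
        rcases mul_eq_zero.1 hj with h | h
        · exact ⟨0, Or.inl h⟩
        · obtain ⟨i, hi⟩ := (ih (Fin.tail s)).1 ⟨j, h⟩
          exact ⟨i.succ, hi⟩
    · rintro ⟨i, hi⟩
      revert hi
      refine Fin.cases ?_ (fun i => ?_) i
      · rintro (h | h)
        · exact ⟨Fin.succ 0, by rw [kv_cons_succ, h, zero_mul]⟩
        · exact ⟨0, by rw [kv_cons_zero, h, sub_self]⟩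
      · intro hi
        obtain ⟨j, hj⟩ := (ih (Fin.tail s)).2 ⟨i, hi⟩
        exact ⟨j.succ, by rw [kv_cons_succ, hj, mul_zero]⟩

theorem kv_surj (n : ℕ) (t : Fin (n + 1) → ℝ) (ht : t ∈ stdSimplex ℝ (Fin (n + 1))) :
    ∃ s : Fin n → ℝ, (∀ i, 0 ≤ s i) ∧ (∀ i, s i ≤ 1) ∧ kv n s = t := by
  induction n with
  | zero =>
    refine ⟨fun i => i.elim0, fun i => i.elim0, fun i => i.elim0, ?_⟩
    funext j
    have h := ht.2
    rw [Fin.sum_univ_one] at h
    have : j = 0 := Subsingleton.elim (α := Fin 1) _ _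
    rw [this, h]
    rfl
  | succ n ih =>
    have hsum := ht.2
    rw [Fin.sum_univ_succ] at hsum
    have hnn : ∀ j : Fin (n + 1), 0 ≤ t j.succ := fun j => ht.1 _
    have h01 : t 0 ≤ 1 := by
      have : 0 ≤ ∑ i : Fin (n + 1), t i.succ := Finset.sum_nonneg fun i _ => hnn i
      linarith
    by_cases h1 : t 0 = 1
    · have hz : ∑ i : Fin (n + 1), t i.succ = 0 := by linarith
      have hz' := (Finset.sum_eq_zero_iff_of_nonneg (fun i _ => hnn i)).1 hz
      refine ⟨fun _ => 0, fun _ => le_rfl, fun _ => zero_le_one, ?_⟩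
      funext j
      refine Fin.cases ?_ (fun j => ?_) j
      · rw [kv_cons_zero, h1, sub_zero]
      · rw [kv_cons_succ, zero_mul, hz' j (Finset.mem_univ _)]
    · have hp : 0 < 1 - t 0 := by
        rcases lt_or_eq_of_le h01 with h | h
        · linarith
        · exact absurd h h1
      obtain ⟨s, hs0, hs1, hs⟩ := ih (fun j => t j.succ / (1 - t 0)) (by
        constructor
        · intro j
          exact div_nonneg (hnn j) hp.le
        · rw [← Finset.sum_div, div_eq_one_iff_eq hp.ne']
          linarith)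
      refine ⟨Fin.cons (1 - t 0) s, ?_, ?_, ?_⟩
      · intro i
        refine Fin.cases hp.le (fun i => ?_) i
        exact hs0 i
      · intro i
        refine Fin.cases ?_ (fun i => ?_) i
        · change 1 - t 0 ≤ 1
          linarith [ht.1 0]
        · exact hs1 i
      · funext j
        refine Fin.cases ?_ (fun j => ?_) j
        · rw [kv_cons_zero, Fin.cons_zero]
          ring
        · rw [kv_cons_succ, Fin.cons_zero, Fin.tail_cons, hs]
          field_simp

/-- the collapse of the cube onto the simplex -/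
def kI (n : ℕ) : C(Fin n → I, stdSimplex ℝ (Fin (n + 1))) :=
  ⟨fun s => ⟨kv n (fun i => (s i : ℝ)), kv_nonneg n _ (fun i => (s i).2.1) (fun i => (s i).2.2),
    kv_sum n _⟩, by
      apply Continuous.subtype_mk
      exact (kv_continuous n).comp (continuous_pi fun i =>
        continuous_subtype_val.comp (continuous_apply i))⟩

theorem kI_apply (n : ℕ) (s : Fin n → I) (j : Fin (n + 1)) :
    (kI n s).1 j = kv n (fun i => (s i : ℝ)) j := rfl

theorem kI_cons_zero (n : ℕ) (t : I) (v : Fin n → I) :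
    (kI (n + 1) (Fin.cons t v)).1 0 = 1 - (t : ℝ) := by
  rw [kI_apply, kv_cons_zero, Fin.cons_zero]

theorem kI_cons_succ (n : ℕ) (t : I) (v : Fin n → I) (k : Fin (n + 1)) :
    (kI (n + 1) (Fin.cons t v)).1 k.succ = (t : ℝ) * (kI n v).1 k := by
  rw [kI_apply, kv_cons_succ, kI_apply]
  rfl

theorem kI_surj (n : ℕ) : Function.Surjective (kI n) := by
  intro t
  obtain ⟨s, h0, h1, hs⟩ := kv_surj n t.1 t.2
  exact ⟨fun i => ⟨s i, h0 i, h1 i⟩, Subtype.ext hs⟩

theorem kI_inj (n : ℕ) (s s' : Fin n → I) (h : kI n s = kI n s') (hs : ∀ i, s i ≠ 0) : s = s' := by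
  have h1 := kv_inj n _ _ (congrArg Subtype.val h) (fun i hi => hs i (Subtype.ext hi))
  funext i
  exact Subtype.ext (congrFun h1 i)

theorem kI_bdry (n : ℕ) (s : Fin n → I) :
    (∃ j, (kI n s).1 j = 0) ↔ s ∈ Cube.boundary (Fin n) := by
  have h := kv_bdry n (fun i => (s i : ℝ))
  have e : (∃ i, ((s i : ℝ) = 0 ∨ (s i : ℝ) = 1)) ↔ s ∈ Cube.boundary (Fin n) := by
    constructor
    · rintro ⟨i, hi | hi⟩
      · exact ⟨i, Or.inl (Subtype.ext hi)⟩
      · exact ⟨i, Or.inr (Subtype.ext hi)⟩
    · rintro ⟨i, hi | hi⟩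
      · exact ⟨i, Or.inl (congrArg Subtype.val hi)⟩
      · exact ⟨i, Or.inr (congrArg Subtype.val hi)⟩
  exact h.trans e

/-- maps on the cube which are constant on the fibres of the collapse factor through it -/
theorem exists_lift {Y : Type} [TopologicalSpace Y] (n : ℕ) (f : C(Fin n → I, Y))
    (h : ∀ a b, kI n a = kI n b → f a = f b) :
    ∃ g : C(stdSimplex ℝ (Fin (n + 1)), Y), ∀ s, g (kI n s) = f s := by
  have hq : Topology.IsQuotientMap (kI n) :=
    ((kI n).continuous.isClosedMap).isQuotientMap (kI n).continuous (kI_surj n)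
  refine ⟨hq.lift f (fun a b hab => h a b hab), fun s => ?_⟩
  have := hq.lift_comp f (fun a b hab => h a b hab)
  exact congrArg (fun F : C(Fin n → I, Y) => F s) this

section Grp

variable {K : Type} [Group K] [TopologicalSpace K] [IsTopologicalGroup K] [PathConnectedSpace K]

theorem map_succAbove_self {n : ℕ} (i : Fin (n + 2)) (t : stdSimplex ℝ (Fin (n + 1))) :
    (stdSimplex.map i.succAbove t).1 i = 0 := by
  change (FunOnFinite.linearMap ℝ ℝ i.succAbove t.1) i = 0
  rw [FunOnFinite.linearMap_apply_apply]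
  apply Finset.sum_eq_zero
  intro j hj
  simp only [Finset.mem_filter] at hj
  exact absurd hj.2 (Fin.succAbove_ne i j)

theorem map_succAbove_succAbove {n : ℕ} (i : Fin (n + 2)) (t : stdSimplex ℝ (Fin (n + 1)))
    (k : Fin (n + 1)) : (stdSimplex.map i.succAbove t).1 (i.succAbove k) = t.1 k := by
  change (FunOnFinite.linearMap ℝ ℝ i.succAbove t.1) (i.succAbove k) = t.1 k
  rw [FunOnFinite.linearMap_apply_apply]
  rw [Finset.sum_eq_single k]
  · intro j hj hjk
    simp only [Finset.mem_filter] at hj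
    exact absurd (Fin.succAbove_right_injective hj.2) hjk
  · intro hk
    simp at hk

theorem exists_face {n : ℕ} (i : Fin (n + 2)) (t : stdSimplex ℝ (Fin (n + 2))) (ht : t.1 i = 0) :
    ∃ u : stdSimplex ℝ (Fin (n + 1)), stdSimplex.map i.succAbove u = t := by
  have hs := t.2.2
  rw [Fin.sum_univ_succAbove _ i, ht, zero_add] at hs
  refine ⟨⟨fun k => t.1 (i.succAbove k), fun k => t.2.1 _, hs⟩, ?_⟩
  apply Subtype.ext
  funext k
  by_cases hk : k = i
  · rw [hk, map_succAbove_self, ht]
  · obtain ⟨k', rfl⟩ := Fin.exists_succAbove_eq hk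
    rw [map_succAbove_succAbove]

/-- an element of `SingG K` as a map -/
def asC {n : ℕ} (x : (SingG K).Γ n) : C(stdSimplex ℝ (Fin (n + 1)), K) := x

theorem d_eq_one {n : ℕ} (i : Fin (n + 2)) (x : (SingG K).Γ (n + 1)) :
    (SingG K).d n i x = 1 ↔ ∀ t : stdSimplex ℝ (Fin (n + 2)), t.1 i = 0 →
      (asC x) t = 1 := by
  constructor
  · intro h t ht
    obtain ⟨u, rfl⟩ := exists_face i t ht
    exact congrArg (fun F : C(stdSimplex ℝ (Fin (n + 1)), K) => F u) h
  · intro h
    refine ContinuousMap.ext fun u => ?_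
    exact h _ (map_succAbove_self i u)

theorem memN {q : ℕ} (x : (SingG K).Γ (q + 1)) : x ∈ (SingG K).N q ↔
    ∀ t : stdSimplex ℝ (Fin (q + 2)), (∃ i, t.1 i = 0) →
      (asC x) t = 1 := by
  rw [SymGrp.mem_N]
  constructor
  · rintro h t ⟨i, hi⟩
    exact (d_eq_one i x).1 (h i) t hi
  · intro h i
    exact (d_eq_one i x).2 fun t ht => h t ⟨i, ht⟩

/-- the generalised loop of a simplex with trivial faces -/
def toL {q : ℕ} (x : (SingG K).N q) : GenLoop (Fin (q + 1)) K 1 :=
  ⟨ContinuousMap.comp (asC x.1) (kI (q + 1)), fun y hy =>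
    (memN x.1).1 x.2 _ ((kI_bdry (q + 1) y).2 hy)⟩

theorem toL_apply {q : ℕ} (x : (SingG K).N q) (s : Fin (q + 1) → I) :
    toL x s = (asC x.1) (kI (q + 1) s) := rfl

theorem toL_inj {q : ℕ} (x y : (SingG K).N q) (h : toL x = toL y) : x = y := by
  apply Subtype.ext
  refine ContinuousMap.ext fun t => ?_
  obtain ⟨s, rfl⟩ := kI_surj (q + 1) t
  exact congrArg (fun F : GenLoop (Fin (q + 1)) K 1 => F s) h

theorem toL_surj {q : ℕ} (f : GenLoop (Fin (q + 1)) K 1) : ∃ x : (SingG K).N q, toL x = f := by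
  obtain ⟨g, hg⟩ := exists_lift (q + 1) f.1 (by
    intro a b hab
    by_cases ha : ∀ i, a i ≠ 0
    · rw [kI_inj _ a b hab ha]
    · by_cases hb : ∀ i, b i ≠ 0
      · rw [kI_inj _ b a hab.symm hb]
      · push Not at ha hb
        obtain ⟨i, hi⟩ := ha
        obtain ⟨j, hj⟩ := hb
        exact (f.2 a ⟨i, Or.inl hi⟩).trans (f.2 b ⟨j, Or.inl hj⟩).symm)
  refine ⟨⟨(g : (SingG K).Γ (q + 1)), ?_⟩, ?_⟩
  · rw [memN]
    intro t ht
    obtain ⟨s, rfl⟩ := kI_surj (q + 1) t
    change g (kI (q + 1) s) = 1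
    rw [hg]
    exact f.2 s ((kI_bdry (q + 1) s).1 ht)
  · exact GenLoop.ext _ _ fun s => hg s

/-- the simplex of a generalised loop -/
def Th {q : ℕ} (f : GenLoop (Fin (q + 1)) K 1) : (SingG K).N q := (toL_surj f).choose

theorem toL_Th {q : ℕ} (f : GenLoop (Fin (q + 1)) K 1) : toL (Th f) = f := (toL_surj f).choose_spec

/-- pointwise product -/
def mulL {N : Type} (f g : GenLoop N K 1) : GenLoop N K 1 :=
  ⟨f.1 * g.1, fun y hy => by
    change f.1 y * g.1 y = 1
    rw [f.2 y hy, g.2 y hy, one_mul]⟩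

/-- pointwise inverse -/
def invL {N : Type} (f : GenLoop N K 1) : GenLoop N K 1 :=
  ⟨f.1⁻¹, fun y hy => by
    change (f.1 y)⁻¹ = 1
    rw [f.2 y hy, inv_one]⟩

theorem mulL_apply {N : Type} (f g : GenLoop N K 1) (y : N → I) : mulL f g y = f y * g y := rfl

theorem invL_apply {N : Type} (f : GenLoop N K 1) (y : N → I) : invL f y = (f y)⁻¹ := rfl

theorem mulL_homotopic {N : Type} {f f' g g' : GenLoop N K 1} (h : GenLoop.Homotopic f f')
    (h' : GenLoop.Homotopic g g') : GenLoop.Homotopic (mulL f g) (mulL f' g') := by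
  obtain ⟨H⟩ := h
  obtain ⟨H'⟩ := h'
  refine ⟨⟨⟨⟨fun p => H p * H' p, by fun_prop⟩, ?_, ?_⟩, ?_⟩⟩
  · intro y
    change H (0, y) * H' (0, y) = f.1 y * g.1 y
    rw [H.apply_zero, H'.apply_zero]
  · intro y
    change H (1, y) * H' (1, y) = f'.1 y * g'.1 y
    rw [H.apply_one, H'.apply_one]
  · intro t y hy
    change H (t, y) * H' (t, y) = f.1 y * g.1 y
    rw [H.eq_fst t hy, H'.eq_fst t hy]

theorem toL_mul {q : ℕ} (x y : (SingG K).N q) : toL (x * y) = mulL (toL x) (toL y) := rfl

theorem toL_inv {q : ℕ} (x : (SingG K).N q) : toL x⁻¹ = invL (toL x) := rfl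

theorem toL_one {q : ℕ} : toL (1 : (SingG K).N q) = GenLoop.const := rfl

/-- null homotopic simplices are null homotopic loops -/
theorem mem_Bd_iff {q : ℕ} (x : (SingG K).N q) : (x : (SingG K).Γ (q + 1)) ∈ (SingG K).Bd q ↔
    GenLoop.Homotopic GenLoop.const (toL x) := by
  rw [SymGrp.mem_Bd]
  constructor
  · rintro ⟨y, hy, hy0⟩
    have hy' : ∀ t : stdSimplex ℝ (Fin (q + 3)), (∃ j : Fin (q + 2), t.1 j.succ = 0) →
        (asC y) t = 1 := by
      rintro t ⟨j, hj⟩
      exact (d_eq_one j.succ y).1 (hy j) t hj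
    refine ⟨⟨⟨⟨fun p => (asC y) (kI (q + 2) (Fin.cons p.1 p.2)), ?_⟩,
      ?_, ?_⟩, ?_⟩⟩
    · refine (asC y).continuous.comp ((kI (q + 2)).continuous.comp ?_)
      refine continuous_pi fun i => ?_
      refine Fin.cases ?_ (fun i => ?_) i
      · exact continuous_fst
      · exact (continuous_apply i).comp continuous_snd
    · intro v
      change (asC y) (kI (q + 2) (Fin.cons 0 v)) = 1
      apply hy'
      refine ⟨0, ?_⟩
      rw [kI_apply, kv_cons_succ]
      simp
    · intro v
      change (asC y) (kI (q + 2) (Fin.cons 1 v)) =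
        (asC x.1) (kI (q + 1) v)
      rw [← hy0]
      change _ = (asC y)
        (stdSimplex.map (Fin.succAbove 0) (kI (q + 1) v))
      congr 1
      apply Subtype.ext
      funext k
      refine Fin.cases ?_ (fun k => ?_) k
      · rw [map_succAbove_self, kI_cons_zero]
        simp
      · have := map_succAbove_succAbove 0 (kI (q + 1) v) k
        rw [Fin.succAbove_zero] at this
        rw [Fin.succAbove_zero, this, kI_cons_succ]
        simp
    · intro t v hv
      change (asC y) (kI (q + 2) (Fin.cons t v)) = 1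
      apply hy'
      obtain ⟨j, hj⟩ := (kI_bdry (q + 1) v).2 hv
      refine ⟨j, ?_⟩
      rw [kI_apply] at hj
      rw [kI_apply, kv_cons_succ]
      have : (Fin.tail fun i => ((Fin.cons t v : Fin (q + 2) → I) i : ℝ)) =
        fun i => ((v i : I) : ℝ) := by
        funext i
        simp [Fin.tail]
      rw [this, hj, mul_zero]
  · rintro ⟨H⟩
    let f : C(Fin (q + 2) → I, K) := ⟨fun s => H (s 0, Fin.tail s), by
      refine H.continuous.comp ((continuous_apply 0).prodMk ?_)
      exact continuous_pi fun i => continuous_apply i.succ⟩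
    have hf : ∀ s : Fin (q + 2) → I, (s 0 = 0 ∨ Fin.tail s ∈ Cube.boundary (Fin (q + 1))) →
        f s = 1 := by
      rintro s (hs | hs)
      · change H (s 0, Fin.tail s) = 1
        rw [hs, H.apply_zero]
        rfl
      · change H (s 0, Fin.tail s) = 1
        rw [H.eq_fst _ hs]
        rfl
    have hz : ∀ s : Fin (q + 2) → I, (∃ i, s i = 0) → f s = 1 := by
      rintro s ⟨i, hi⟩
      apply hf
      revert hi
      refine Fin.cases ?_ (fun i => ?_) i
      · exact fun h => Or.inl h
      · exact fun h => Or.inr ⟨i, Or.inl h⟩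
    obtain ⟨y, hy⟩ := exists_lift (q + 2) f (by
      intro a b hab
      by_cases ha : ∀ i, a i ≠ 0
      · rw [kI_inj _ a b hab ha]
      · by_cases hb : ∀ i, b i ≠ 0
        · rw [kI_inj _ b a hab.symm hb]
        · push Not at ha hb
          rw [hz a ha, hz b hb])
    refine ⟨(y : (SingG K).Γ (q + 2)), ?_, ?_⟩
    · intro j
      rw [d_eq_one]
      intro t ht
      obtain ⟨s, rfl⟩ := kI_surj (q + 2) t
      change y (kI (q + 2) s) = 1
      rw [hy]
      apply hf
      rw [kI_apply, kv_cons_succ] at ht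
      rcases mul_eq_zero.1 ht with h | h
      · exact Or.inl (Subtype.ext h)
      · refine Or.inr ?_
        rw [← kI_bdry]
        exact ⟨j, h⟩
    · refine ContinuousMap.ext fun u => ?_
      obtain ⟨v, rfl⟩ := kI_surj (q + 1) u
      change y (stdSimplex.map (Fin.succAbove 0) (kI (q + 1) v)) =
        (asC x.1) (kI (q + 1) v)
      have e : stdSimplex.map (Fin.succAbove 0) (kI (q + 1) v) = kI (q + 2) (Fin.cons 1 v) := by
        apply Subtype.ext
        funext k
        refine Fin.cases ?_ (fun k => ?_) k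
        · rw [map_succAbove_self, kI_cons_zero]
          simp
        · have := map_succAbove_succAbove 0 (kI (q + 1) v) k
          rw [Fin.succAbove_zero] at this
          rw [Fin.succAbove_zero, this, kI_cons_succ]
          simp
      rw [e, hy]
      change H (1, v) = _
      rw [H.apply_one]
      rfl

theorem cls_Th_eq {q : ℕ} (f g : GenLoop (Fin (q + 1)) K 1) (h : GenLoop.Homotopic f g) :
    (SingG K).cls q (Th f) = (SingG K).cls q (Th g) := by
  apply (SingG K).cls_eq_of
  have h1 := (mem_Bd_iff (Th f * (Th g)⁻¹)).2 (by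
    rw [toL_mul, toL_inv, toL_Th, toL_Th]
    have h2 : mulL g (invL g) = GenLoop.const := GenLoop.ext _ _ fun y => by
      rw [mulL_apply, invL_apply, mul_inv_cancel]
      rfl
    rw [← h2]
    exact (mulL_homotopic h (GenLoop.Homotopic.refl _)).symm)
  exact h1

theorem Th_mul {q : ℕ} (f g : GenLoop (Fin (q + 1)) K 1) : Th (mulL f g) = Th f * Th g := by
  apply toL_inj
  rw [toL_mul, toL_Th, toL_Th, toL_Th]

/-- the comparison map -/
def Psi0 (q : ℕ) : HomotopyGroup (Fin (q + 1)) K 1 → (SingG K).Pg q :=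
  Quotient.lift (fun f => (SingG K).cls q (Th f)) fun f g h => cls_Th_eq f g h

theorem transAt_eq {q : ℕ} (i : Fin (q + 1)) (f g : GenLoop (Fin (q + 1)) K 1) :
    GenLoop.transAt i f g = mulL (GenLoop.transAt i f GenLoop.const)
      (GenLoop.transAt i GenLoop.const g) := by
  apply GenLoop.ext
  intro t
  rw [mulL_apply]
  simp only [GenLoop.transAt, GenLoop.coe_copy, GenLoop.const_apply]
  split_ifs
  · rw [mul_one]
  · rw [one_mul]

/-- the class of a generalised loop -/
def mkH {q : ℕ} (f : GenLoop (Fin (q + 1)) K 1) : HomotopyGroup (Fin (q + 1)) K 1 := ⟦f⟧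

theorem mkH_mul {q : ℕ} (f g : GenLoop (Fin (q + 1)) K 1) :
    mkH f * mkH g = mkH (GenLoop.transAt 0 g f) := HomotopyGroup.mul_spec (i := 0)

theorem mkH_const {q : ℕ} : mkH (GenLoop.const : GenLoop (Fin (q + 1)) K 1) = 1 := rfl

theorem Psi0_mkH {q : ℕ} (f : GenLoop (Fin (q + 1)) K 1) :
    Psi0 q (mkH f) = (SingG K).cls q (Th f) := rfl

theorem mkH_surj {q : ℕ} (a : HomotopyGroup (Fin (q + 1)) K 1) :
    ∃ f : GenLoop (Fin (q + 1)) K 1, mkH f = a := Quotient.exists_rep a

theorem Psi0_mul (q : ℕ) (a b : HomotopyGroup (Fin (q + 1)) K 1) :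
    Psi0 q (a * b) = Psi0 q a * Psi0 q b := by
  obtain ⟨f, rfl⟩ := mkH_surj a
  obtain ⟨g, rfl⟩ := mkH_surj b
  have h2 : mkH (GenLoop.transAt 0 g GenLoop.const) = mkH g := by
    rw [← mkH_mul, mkH_const, one_mul]
  have h4 : mkH (GenLoop.transAt 0 GenLoop.const f) = mkH f := by
    rw [← mkH_mul, mkH_const, mul_one]
  have h5 : Psi0 q (mkH (GenLoop.transAt 0 g f)) =
      Psi0 q (mkH (GenLoop.transAt 0 g GenLoop.const)) *
      Psi0 q (mkH (GenLoop.transAt 0 GenLoop.const f)) := by
    rw [Psi0_mkH, Psi0_mkH, Psi0_mkH, transAt_eq, Th_mul, map_mul]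
  rw [mkH_mul, h5, h2, h4, mul_comm]

/-- F3: cubical and simplicial homotopy groups -/
theorem main (q : ℕ) : ∃ Ψ : HomotopyGroup (Fin (q + 1)) K 1 →* (SingG K).Pg q,
    Function.Injective Ψ := by
  refine ⟨MonoidHom.mk' (Psi0 q) (Psi0_mul q), ?_⟩
  rw [injective_iff_map_eq_one]
  intro a ha
  obtain ⟨f, rfl⟩ := mkH_surj a
  change Psi0 q (mkH f) = 1 at ha
  rw [Psi0_mkH, SymGrp.cls_eq_one, mem_Bd_iff, toL_Th] at ha
  rw [← mkH_const]
  exact Quotient.sound ha.symm

end Grp

end

end Run7.h605.RE
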